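import Pool.Agent.helper52.WP.SpecT

set_option autoImplicit false

open Complex Metric Set Filter Topology MeasureTheory
open V3S (UF)
open WP

noncomputable section

namespace WPT

theorem KCB_zzd (D : Dat) (x : ℂ) : HasDerivAt D.zz D.sg x := by
  unfold Dat.zz
  simpa using ((hasDerivAt_id x).const_mul D.sg).const_add D.w

theorem KCB_xxd (D : Dat) (z : ℂ) : HasDerivAt D.xx (1 / D.sg) z := by
  unfold Dat.xx
  exact ((hasDerivAt_id z).sub_const D.w).div_const D.sg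

theorem KCB (hCB1 : WPC.CB1_stmt) (hKO3 : V3.KO3_stmt) : KCB_stmt := by
  obtain ⟨C₀, hC₀, hK⟩ := hKO3 (1 / 2) (by norm_num) (by norm_num)
  refine ⟨C₀ * C₀, one_le_mul_of_one_le_of_one_le hC₀ hC₀, ?_⟩
  intro n C A D hD x₀ ρ r χ Ψ hSt C₂ hC₂ hρ hder hsg q hq1 hqK
  obtain ⟨hs, _, hxz, hzx, _, hadd, hFd, _⟩ := hCB1 D hD.rho
  set j := D.k - q with hj
  have hjk : j ≤ D.k := Nat.sub_le _ _
  have hinj : InjOn (D.F j) (ball 0 1) := by
    intro x hx x' hx' h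
    apply hD.inj hx hx'
    have h1 : D.k = q + j := by omega
    rw [h1, hadd, hadd, h]
  obtain ⟨_, hdis⟩ := hK (D.F j) 0 1 one_pos (hFd j).differentiableOn hinj
  have hx₀ : x₀ ∈ ball x₀ ρ := mem_ball_self hρ
  set y := Ψ x₀ with hy
  have hy1 : ‖y‖ < 1 / 2 := by
    have h1 := mem_ball_zero_iff.1 (hSt.psr x₀ hx₀).1
    have h2 : 1 / (2 * C) ≤ 1 / 2 := by
      apply one_div_le_one_div_of_le (by norm_num)
      linarith [hD.C1]
    exact lt_of_lt_of_le h1 h2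
  obtain ⟨_, d2, d3, _⟩ := hdis y (by
    rw [mem_ball_zero_iff]
    linarith)
  have hxx : D.xx (χ 0) = x₀ := by rw [hSt.val, hxz]
  have htw0 : tw D Ψ χ q 0 = D.zz (D.F j y) := by
    unfold tw
    rw [hxx]
  have hdiff : tw D Ψ χ q 0 - D.zz (D.F j 0) = D.sg * (D.F j y - D.F j 0) := by
    rw [htw0]
    unfold Dat.zz
    ring
  have hr0 : (0 : ℂ) ∈ ball (0 : ℂ) (2 * r) := mem_ball_self (by linarith [hSt.r0])
  have hχd : HasDerivAt χ (deriv χ 0) 0 :=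
    ((hSt.nat.diff.differentiableAt (isOpen_ball.mem_nhds hr0))).hasDerivAt
  have hΨd : HasDerivAt Ψ (deriv Ψ x₀) x₀ :=
    (hSt.psd.differentiableAt (isOpen_ball.mem_nhds hx₀)).hasDerivAt
  have h1 : HasDerivAt (fun w => D.xx (χ w)) (1 / D.sg * deriv χ 0) 0 :=
    HasDerivAt.comp 0 (KCB_xxd D (χ 0)) hχd
  have h2 : HasDerivAt (fun w => Ψ (D.xx (χ w))) (deriv Ψ x₀ * (1 / D.sg * deriv χ 0)) 0 := by
    have hgd' : HasDerivAt Ψ (deriv Ψ x₀) (D.xx (χ 0)) := by rw [hxx]; exact hΨd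
    have h := hgd'.comp (0 : ℂ) h1
    exact h
  have h3 : HasDerivAt (fun w => D.F j (Ψ (D.xx (χ w))))
      (deriv (D.F j) y * (deriv Ψ x₀ * (1 / D.sg * deriv χ 0))) 0 := by
    have hFj : HasDerivAt (D.F j) (deriv (D.F j) y) (Ψ (D.xx (χ 0))) := by
      rw [hxx]
      exact (hFd j y).hasDerivAt
    have h := hFj.comp (0 : ℂ) h2
    exact h
  have h4 : HasDerivAt (fun w => D.zz (D.F j (Ψ (D.xx (χ w)))))
      (D.sg * (deriv (D.F j) y * (deriv Ψ x₀ * (1 / D.sg * deriv χ 0)))) 0 := by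
    have h := (KCB_zzd D (D.F j (Ψ (D.xx (χ 0))))).comp (0 : ℂ) h3
    exact h
  have h5 : deriv (tw D Ψ χ q) 0 = deriv (D.F j) y * (deriv Ψ x₀ * deriv χ 0) := by
    have e : tw D Ψ χ q = fun w => D.zz (D.F j (Ψ (D.xx (χ w)))) := rfl
    rw [e, h4.deriv]
    field_simp
  rw [h5, hdiff, norm_mul, norm_mul, norm_mul]
  have ha0 : 0 ≤ ‖deriv (D.F j) y‖ := norm_nonneg _
  have hχ0 : 0 ≤ ‖deriv χ 0‖ := norm_nonneg _
  have hC0 : 0 ≤ C₀ := le_trans zero_le_one hC₀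
  have e1 : ‖D.F j y - D.F j 0‖ ≤ C₀ * C₀ * (1 / 2) * ‖deriv (D.F j) y‖ := by
    refine le_trans d3 ?_
    rw [sub_zero]
    calc C₀ * ‖y‖ * ‖deriv (D.F j) 0‖ ≤ C₀ * (1 / 2) * (C₀ * ‖deriv (D.F j) y‖) := by
          apply mul_le_mul _ d2 (norm_nonneg _) (by positivity)
          exact mul_le_mul_of_nonneg_left hy1.le hC0
      _ = C₀ * C₀ * (1 / 2) * ‖deriv (D.F j) y‖ := by ring
  calc ‖D.sg‖ * ‖D.F j y - D.F j 0‖
      ≤ (C₂ * ‖deriv χ 0‖) * (C₀ * C₀ * (1 / 2) * ‖deriv (D.F j) y‖) := by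
        apply mul_le_mul hsg e1 (norm_nonneg _) (by positivity)
    _ = C₀ * C₀ * C₂ * (‖deriv (D.F j) y‖ * (1 / 2 * ‖deriv χ 0‖)) := by ring
    _ ≤ C₀ * C₀ * C₂ * (‖deriv (D.F j) y‖ * (‖deriv Ψ x₀‖ * ‖deriv χ 0‖)) := by
        apply mul_le_mul_of_nonneg_left _ (by positivity)
        apply mul_le_mul_of_nonneg_left _ ha0
        exact mul_le_mul_of_nonneg_right hder hχ0

end WPT
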