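import Pool.Agent.helper52.WP.SpecB

set_option autoImplicit false

open Complex Metric Set Filter Topology MeasureTheory
open V3S (UF)
open WP
open PPS (pre TT fd)
open XPS (Df er)

noncomputable section

namespace WPB

theorem SBD_mono {t e : ℝ} (ht : 0 < t) (hte : t ≤ e) (he : e ≤ 1) :
    t * (1 + Real.log (1 / t)) ≤ e * (1 + Real.log (1 / e)) := by
  have he0 : 0 < e := lt_of_lt_of_le ht hte
  set u : ℝ := t / e with hu
  have hu0 : 0 < u := div_pos ht he0
  have hu1 : u ≤ 1 := (div_le_one he0).2 hte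
  have htu : t = e * u := by rw [hu]; field_simp
  have h1 : Real.log (1 / t) = Real.log (1 / e) + Real.log (1 / u) := by
    rw [← Real.log_mul (by positivity) (by positivity), htu]
    congr 1
    field_simp
  have h2 : Real.log (1 / u) ≤ 1 / u - 1 := Real.log_le_sub_one_of_pos (by positivity)
  have h3 : u * Real.log (1 / u) ≤ 1 - u := by
    have h4 : u * Real.log (1 / u) ≤ u * (1 / u - 1) := mul_le_mul_of_nonneg_left h2 hu0.le
    have h5 : u * (1 / u - 1) = 1 - u := by field_simp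
    linarith
  have h6 : 0 ≤ Real.log (1 / e) := Real.log_nonneg (by rw [le_div_iff₀ he0]; linarith)
  have h7 : 0 ≤ (1 - u) * Real.log (1 / e) := mul_nonneg (by linarith) h6
  have h8 : u * (1 + Real.log (1 / t)) ≤ 1 + Real.log (1 / e) := by
    rw [h1]
    have : u * (1 + (Real.log (1 / e) + Real.log (1 / u))) =
      u + u * Real.log (1 / e) + u * Real.log (1 / u) := by ring
    rw [this]
    have h9 : (1 - u) * Real.log (1 / e) = Real.log (1 / e) - u * Real.log (1 / e) := by ring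
    rw [h9] at h7
    linarith
  calc t * (1 + Real.log (1 / t)) = e * (u * (1 + Real.log (1 / t))) := by
        rw [← mul_assoc, ← htu]
    _ ≤ e * (1 + Real.log (1 / e)) := mul_le_mul_of_nonneg_left h8 he0.le

theorem SBD (hVLC : VLC_stmt) (hVIT : VIT_stmt) (hCB1 : WPC.CB1_stmt) : SBD_stmt := by
  intro n c ε M D v hP hM hCR hv
  obtain ⟨_, hsg, _, _, _, _, _, _, hder, hzz, _⟩ := hCB1 D hP.rho
  obtain ⟨κ, k1, k2⟩ := hVLC M v hM hCR D.w D.ρ hP.rho
  have hρ := hP.rho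
  have hε := hP.e0
  have hε1 : ε ≤ 1 := le_trans hP.e1 (by norm_num)
  have hlog : 0 ≤ Real.log (1 / ε) := Real.log_nonneg (by rw [le_div_iff₀ hε]; linarith)
  have ha1 : ∀ i, D.a i ∈ ball (0 : ℂ) 1 := by
    intro i
    rw [mem_ball_zero_iff]
    have := hP.pt i
    linarith
  set b : Fin 3 → ℂ := fun i => D.F D.k (D.a i) with hb
  set β : Fin 3 → ℂ := fun i => 1 / deriv (D.F D.k) (D.a i) with hβ
  have hzw : ∀ x, D.zz x - D.w = D.sg * x := by
    intro x
    unfold Dat.zz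
    ring
  -- the sum
  have hS : ∀ i, ∑ j ∈ Finset.Icc 1 D.k, 1 / deriv (it (GR.fp n c) j) (D.zz (D.a i)) =
      β i * v (D.zz (b i)) - v (D.zz (D.a i)) := by
    intro i
    have h1 : deriv (D.F D.k) (D.a i) = deriv (it (GR.fp n c) D.k) (D.zz (D.a i)) := by
      rw [hder, hP.hf]
    have h2 := hVIT n c v hP.hn hv D.k (D.zz (D.a i)) (by rw [← h1]; exact (hP.der i).1)
    rw [h2]
    have h3 : it (GR.fp n c) D.k (D.zz (D.a i)) = D.zz (b i) := by
      rw [hb]
      simp only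
      rw [hzz, hP.hf]
    rw [h3, ← h1, hβ]
    ring
  set ν : ℂ → ℂ := fun z => v z - v D.w - κ * (z - D.w) with hν
  have hsum : ∑ i, D.γ i * ∑ j ∈ Finset.Icc 1 D.k, 1 / deriv (it (GR.fp n c) j) (D.zz (D.a i)) =
      ∑ i, D.γ i * ((β i - 1) * ν (D.zz (b i)) + (ν (D.zz (b i)) - ν (D.zz (D.a i)))) := by
    have l1 := hP.l1
    have l2 := hP.l2
    have e1 : ∀ i, D.γ i * ∑ j ∈ Finset.Icc 1 D.k, 1 / deriv (it (GR.fp n c) j) (D.zz (D.a i)) =
        D.γ i * ((β i - 1) * ν (D.zz (b i)) + (ν (D.zz (b i)) - ν (D.zz (D.a i)))) +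
        (-(v D.w)) * (D.γ i * (1 - 1 / deriv (D.F D.k) (D.a i))) +
        (-(κ * D.sg)) * (D.γ i * (D.a i - 1 / deriv (D.F D.k) (D.a i) * D.F D.k (D.a i))) := by
      intro i
      rw [hS i]
      simp only [hν, hzw, hβ, hb]
      ring
    rw [Finset.sum_congr rfl (fun i _ => e1 i), Finset.sum_add_distrib, Finset.sum_add_distrib,
      ← Finset.mul_sum, ← Finset.mul_sum, l1, l2, mul_zero, mul_zero, add_zero, add_zero]
  rw [hsum]
  -- the bound of one term
  have hterm : ∀ i, ‖D.γ i * ((β i - 1) * ν (D.zz (b i)) + (ν (D.zz (b i)) - ν (D.zz (D.a i))))‖ ≤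
      90 * M * D.ρ * ε * (1 + Real.log (1 / ε)) := by
    intro i
    have hn := hP.near (D.a i) (ha1 i)
    have hbi : ‖b i‖ ≤ 1 / 4 + ε := by
      have h1 : b i = (b i - D.a i) + D.a i := by ring
      rw [h1]
      calc ‖(b i - D.a i) + D.a i‖ ≤ ‖b i - D.a i‖ + ‖D.a i‖ := norm_add_le _ _
        _ ≤ ε + 1 / 4 := add_le_add hn (hP.pt i)
        _ = 1 / 4 + ε := by ring
    have hnb : ‖ν (D.zz (b i))‖ ≤ 10 * M * D.ρ := by
      apply k1
      rw [mem_closedBall, dist_eq_norm, hzw, norm_mul, hsg]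
      have : D.ρ * ‖b i‖ ≤ D.ρ * 2 := mul_le_mul_of_nonneg_left (by linarith) hρ.le
      linarith
    have hβi : ‖β i - 1‖ ≤ 8 * ε := (hP.der i).2
    have hd : ‖ν (D.zz (b i)) - ν (D.zz (D.a i))‖ ≤ 10 * M * D.ρ * (ε * (1 + Real.log (1 / ε))) := by
      set h : ℂ := D.sg * (b i - D.a i) with hh
      have hzb : D.zz (b i) = D.zz (D.a i) + h := by
        rw [hh]
        unfold Dat.zz
        ring
      by_cases h0 : h = 0
      · rw [hzb, h0, add_zero, sub_self, norm_zero]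
        positivity
      · have hnorm : ‖h‖ = D.ρ * ‖b i - D.a i‖ := by rw [hh, norm_mul, hsg]
        have hpos : 0 < ‖h‖ := norm_pos_iff.2 h0
        have hle : ‖h‖ ≤ D.ρ * ε := by
          rw [hnorm]
          exact mul_le_mul_of_nonneg_left hn hρ.le
        have hle1 : ‖h‖ ≤ D.ρ := by
          have : D.ρ * ε ≤ D.ρ * 1 := mul_le_mul_of_nonneg_left hε1 hρ.le
          linarith
        have hmem : D.zz (D.a i) ∈ ball D.w D.ρ := by
          rw [mem_ball, dist_eq_norm, hzw, norm_mul, hsg]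
          have h1 : D.ρ * ‖D.a i‖ ≤ D.ρ * (1 / 4) := mul_le_mul_of_nonneg_left (hP.pt i) hρ.le
          linarith
        have h2 := k2 (D.zz (D.a i)) hmem h h0 hle1
        have h3 : ν (D.zz (b i)) - ν (D.zz (D.a i)) = (v (D.zz (D.a i) + h) - κ * h) - v (D.zz (D.a i)) := by
          rw [hzb]
          simp only [hν]
          ring
        rw [h3]
        refine le_trans h2 ?_
        set t : ℝ := ‖h‖ / D.ρ with ht
        have ht0 : 0 < t := div_pos hpos hρ
        have hte : t ≤ ε := by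
          rw [ht, div_le_iff₀ hρ]
          linarith
        have hm := SBD_mono ht0 hte hε1
        have e1 : ‖h‖ = D.ρ * t := by rw [ht]; field_simp
        have e2 : D.ρ / ‖h‖ = 1 / t := by rw [ht]; field_simp
        rw [e2, e1]
        calc 10 * M * (D.ρ * t) * (1 + Real.log (1 / t)) = 10 * M * D.ρ * (t * (1 + Real.log (1 / t))) := by ring
          _ ≤ 10 * M * D.ρ * (ε * (1 + Real.log (1 / ε))) := mul_le_mul_of_nonneg_left hm (by positivity)
    have hmul : ‖(β i - 1) * ν (D.zz (b i))‖ ≤ 8 * ε * (10 * M * D.ρ) := by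
      rw [norm_mul]
      exact mul_le_mul hβi hnb (norm_nonneg _) (by positivity)
    have hfirst : 8 * ε * (10 * M * D.ρ) ≤ 80 * M * D.ρ * (ε * (1 + Real.log (1 / ε))) := by
      have h1 : ε ≤ ε * (1 + Real.log (1 / ε)) := by
        have h2 : 0 ≤ ε * Real.log (1 / ε) := mul_nonneg hε.le hlog
        linarith
      calc 8 * ε * (10 * M * D.ρ) = 80 * M * D.ρ * ε := by ring
        _ ≤ 80 * M * D.ρ * (ε * (1 + Real.log (1 / ε))) := mul_le_mul_of_nonneg_left h1 (by positivity)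
    rw [norm_mul]
    have hin : ‖(β i - 1) * ν (D.zz (b i)) + (ν (D.zz (b i)) - ν (D.zz (D.a i)))‖ ≤
        90 * M * D.ρ * ε * (1 + Real.log (1 / ε)) := by
      calc ‖(β i - 1) * ν (D.zz (b i)) + (ν (D.zz (b i)) - ν (D.zz (D.a i)))‖
          ≤ ‖(β i - 1) * ν (D.zz (b i))‖ + ‖ν (D.zz (b i)) - ν (D.zz (D.a i))‖ := norm_add_le _ _
        _ ≤ 80 * M * D.ρ * (ε * (1 + Real.log (1 / ε))) + 10 * M * D.ρ * (ε * (1 + Real.log (1 / ε))) :=
            add_le_add (le_trans hmul hfirst) hd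
        _ = 90 * M * D.ρ * ε * (1 + Real.log (1 / ε)) := by ring
    calc ‖D.γ i‖ * ‖(β i - 1) * ν (D.zz (b i)) + (ν (D.zz (b i)) - ν (D.zz (D.a i)))‖
        ≤ 1 * ‖(β i - 1) * ν (D.zz (b i)) + (ν (D.zz (b i)) - ν (D.zz (D.a i)))‖ :=
          mul_le_mul_of_nonneg_right (hP.gam i) (norm_nonneg _)
      _ ≤ 90 * M * D.ρ * ε * (1 + Real.log (1 / ε)) := by rw [one_mul]; exact hin
  have hpos : 0 ≤ M * D.ρ * ε * (1 + Real.log (1 / ε)) := by positivity
  calc ‖∑ i, D.γ i * ((β i - 1) * ν (D.zz (b i)) + (ν (D.zz (b i)) - ν (D.zz (D.a i))))‖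
      ≤ ∑ i : Fin 3, ‖D.γ i * ((β i - 1) * ν (D.zz (b i)) + (ν (D.zz (b i)) - ν (D.zz (D.a i))))‖ :=
        norm_sum_le _ _
    _ ≤ ∑ _i : Fin 3, 90 * M * D.ρ * ε * (1 + Real.log (1 / ε)) := Finset.sum_le_sum (fun i _ => hterm i)
    _ = 270 * (M * D.ρ * ε * (1 + Real.log (1 / ε))) := by
        rw [Finset.sum_const, Finset.card_univ, Fintype.card_fin, nsmul_eq_mul]
        push_cast
        ring
    _ ≤ 300 * (M * D.ρ * ε * (1 + Real.log (1 / ε))) := mul_le_mul_of_nonneg_right (by norm_num) hpos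
    _ = 300 * M * D.ρ * ε * (1 + Real.log (1 / ε)) := by ring

end WPB
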